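import Mathlib

/-! Telescoping identity behind Ramanujan's partial theta identity. -/

set_option autoImplicit false

namespace Pool.Agent.E8helper76.TO

open Finset

section field

variable {K : Type*} [Field K] (q : K) (v : ℤ → K) (D : ℕ → K)

/-- the summand -/
noncomputable def a (n k : ℕ) : K :=
  q ^ (6 * k ^ 2 + 3 * k + 2 * n) * D n * v ((n : ℤ) + 2 * k + 1) * v ((n : ℤ) - 2 * k)

/-- the certificate -/
noncomputable def b (n k : ℕ) : K :=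
  q ^ (6 * k ^ 2 + 7 * k + 1) * (1 - q ^ (4 * k + 3)) * D n * v ((n : ℤ) + 2 * k + 2) *
    v ((n : ℤ) - 2 * k - 1)

theorem local_id (hq : q ≠ 0) (hv : ∀ i : ℤ, v i = (1 - q ^ (2 * i + 1)) * v (i + 1))
    (hD : ∀ n, D (n + 1) = D n * (1 - q ^ (4 * n + 2)) * (1 + q ^ (2 * n + 2))) (n k : ℕ) :
    a q v D n k - a q v D n (k + 1) = b q v D (n + 1) k - b q v D n k := by
  have e1 : v ((n : ℤ) + 2 * k + 1) = (1 - q ^ (2 * n + 4 * k + 3)) * v ((n : ℤ) + 2 * k + 2) := by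
    rw [hv, add_assoc ((n : ℤ) + 2 * k) 1 1]
    norm_num
    left
    rw [← zpow_natCast]
    congr 1
    push_cast; ring
  have e2 : v ((n : ℤ) + 2 * k + 2) = (1 - q ^ (2 * n + 4 * k + 5)) * v ((n : ℤ) + 2 * k + 3) := by
    rw [hv, add_assoc ((n : ℤ) + 2 * k) 2 1]
    norm_num
    left
    rw [← zpow_natCast]
    congr 1
    push_cast; ring
  have e3 : v ((n : ℤ) - 2 * k - 1) = (1 - q ^ (2 * n) * (q ^ (4 * k + 1))⁻¹) * v ((n : ℤ) - 2 * k) := by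
    rw [hv, sub_add_cancel]
    congr 2
    rw [← zpow_natCast, ← zpow_natCast, ← zpow_neg, ← zpow_add₀ hq]
    congr 1
    push_cast; ring
  have e4 : v ((n : ℤ) - 2 * k - 2) =
      (1 - q ^ (2 * n) * (q ^ (4 * k + 3))⁻¹) * v ((n : ℤ) - 2 * k - 1) := by
    rw [hv, show (n : ℤ) - 2 * k - 2 + 1 = (n : ℤ) - 2 * k - 1 by ring]
    congr 2
    rw [← zpow_natCast, ← zpow_natCast, ← zpow_neg, ← zpow_add₀ hq]
    congr 1
    push_cast; ring
  have f1 : (n : ℤ) + 2 * ((k + 1 : ℕ) : ℤ) + 1 = (n : ℤ) + 2 * k + 3 := by push_cast; ring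
  have f2 : (n : ℤ) - 2 * ((k + 1 : ℕ) : ℤ) = (n : ℤ) - 2 * k - 2 := by push_cast; ring
  have f3 : ((n + 1 : ℕ) : ℤ) + 2 * k + 2 = (n : ℤ) + 2 * k + 3 := by push_cast; ring
  have f4 : ((n + 1 : ℕ) : ℤ) - 2 * k - 1 = (n : ℤ) - 2 * k := by push_cast; ring
  unfold a b
  rw [f1, f2, f3, f4, e1, e2, e4, e3, hD]
  generalize v ((n : ℤ) + 2 * k + 3) = w1
  generalize v ((n : ℤ) - 2 * k) = w2
  generalize D n = d
  have g1 : q ^ (6 * (k + 1) ^ 2 + 3 * (k + 1) + 2 * n) =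
      q ^ (6 * k ^ 2 + 3 * k) * (q ^ (4 * k)) ^ 3 * q ^ 9 * q ^ (2 * n) := by ring
  have g2 : q ^ (6 * k ^ 2 + 3 * k + 2 * n) = q ^ (6 * k ^ 2 + 3 * k) * q ^ (2 * n) := by ring
  have g3 : q ^ (6 * k ^ 2 + 7 * k + 1) = q ^ (6 * k ^ 2 + 3 * k) * q ^ (4 * k) * q := by ring
  have g4 : q ^ (2 * n + 4 * k + 3) = q ^ (2 * n) * q ^ (4 * k) * q ^ 3 := by ring
  have g5 : q ^ (2 * n + 4 * k + 5) = q ^ (2 * n) * q ^ (4 * k) * q ^ 5 := by ring
  have g6 : q ^ (4 * k + 3) = q ^ (4 * k) * q ^ 3 := by ring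
  have g7 : q ^ (4 * k + 1) = q ^ (4 * k) * q := by ring
  have g8 : q ^ (4 * n + 2) = (q ^ (2 * n)) ^ 2 * q ^ 2 := by ring
  have g9 : q ^ (2 * n + 2) = q ^ (2 * n) * q ^ 2 := by ring
  rw [g1, g2, g3, g4, g5, g6, g7, g8, g9]
  have hB : q ^ (4 * k) ≠ 0 := pow_ne_zero _ hq
  generalize q ^ (4 * k) = B at *
  generalize q ^ (2 * n) = A at *
  generalize q ^ (6 * k ^ 2 + 3 * k) = C at *
  field_simp
  ring

theorem sum_id (hq : q ≠ 0) (hv : ∀ i : ℤ, v i = (1 - q ^ (2 * i + 1)) * v (i + 1))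
    (hD : ∀ n, D (n + 1) = D n * (1 - q ^ (4 * n + 2)) * (1 + q ^ (2 * n + 2))) (M k : ℕ) :
    ∑ n ∈ range M, a q v D n 0 =
      ∑ j ∈ range k, (b q v D M j - b q v D 0 j) + ∑ n ∈ range M, a q v D n k := by
  induction k with
  | zero => simp
  | succ k ih =>
    rw [ih, sum_range_succ]
    have h : ∑ n ∈ range M, (a q v D n k - a q v D n (k + 1)) = b q v D M k - b q v D 0 k := by
      rw [← sum_range_sub (fun n => b q v D n k)]
      exact sum_congr rfl fun n _ => local_id q v D hq hv hD n k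
    rw [sum_sub_distrib] at h
    linear_combination h

end field

end Pool.Agent.E8helper76.TO
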