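import Pool.Agent.E8helper76.TO.Two

/-! The parity of the coefficients. -/

set_option autoImplicit false

namespace Pool.Agent.E8helper76.TO

open Finset PowerSeries

/-- the image of `D` in the Laurent series -/
noncomputable def DL (n : ℕ) : L := φ (D n)

theorem DL_succ (n : ℕ) :
    DL (n + 1) = DL n * (1 - qq ^ (4 * n + 2)) * (1 + qq ^ (2 * n + 2)) := by
  simp only [DL, D_succ, map_mul, map_sub, map_add, map_one, map_pow]
  rfl

theorem a_zero (n : ℕ) : a qq v DL n 0 = φ (X ^ (2 * n) * D n * u (n + 1) * u n) := by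
  have e1 : (n : ℤ) + 2 * ((0 : ℕ) : ℤ) + 1 = ((n + 1 : ℕ) : ℤ) := by push_cast; ring
  have e2 : (n : ℤ) - 2 * ((0 : ℕ) : ℤ) = (n : ℤ) := by simp
  rw [a, e1, e2, v_nat, v_nat, DL]
  simp only [map_mul, map_pow]
  have h1 : φ X = qq := rfl
  rw [h1]
  congr 4
  ring

theorem a_dvd (n k : ℕ) : ∃ g : S, a qq v DL n k = φ (X ^ (2 * k ^ 2 + 3 * k) * g) := by
  have e1 : (n : ℤ) + 2 * (k : ℤ) + 1 = ((n + 2 * k + 1 : ℕ) : ℤ) := by push_cast; ring
  rcases le_or_gt (2 * k) n with h | h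
  · obtain ⟨m, rfl⟩ := Nat.exists_eq_add_of_le h
    have e2 : ((2 * k + m : ℕ) : ℤ) - 2 * (k : ℤ) = (m : ℤ) := by push_cast; ring
    refine ⟨X ^ (4 * k ^ 2 + 2 * (2 * k + m)) * D (2 * k + m) * u (2 * k + m + 2 * k + 1) * u m, ?_⟩
    rw [a, e1, e2, v_nat, v_nat, DL]
    simp only [map_mul, map_pow]
    have h1 : φ X = qq := rfl
    rw [h1]
    ring
  · obtain ⟨r, hr⟩ := Nat.exists_eq_add_of_lt h
    have e2 : (n : ℤ) - 2 * (k : ℤ) = -((r + 1 : ℕ) : ℤ) := by push_cast; omega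
    refine ⟨X ^ (n * (4 * k + 2 - n)) * D n * u (n + 2 * k + 1) * P (r + 1), ?_⟩
    rw [a, e1, e2, v_nat, v_neg, DL]
    simp only [map_mul, map_pow]
    have h1 : φ X = qq := rfl
    rw [h1]
    have h2 : qq ^ (6 * k ^ 2 + 3 * k + 2 * n) * qq ^ (-(((r + 1 : ℕ) : ℤ) ^ 2)) =
        qq ^ (2 * k ^ 2 + 3 * k) * qq ^ (n * (4 * k + 2 - n)) := by
      rw [← pow_add, ← zpow_natCast, ← zpow_natCast, ← zpow_add₀ qq_ne]
      congr 1
      have hn : n ≤ 4 * k + 2 := by omega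
      have hrr : ((r + 1 : ℕ) : ℤ) = 2 * k - n := by omega
      rw [hrr]
      push_cast [Nat.cast_sub hn]
      ring
    calc _ = (qq ^ (6 * k ^ 2 + 3 * k + 2 * n) * qq ^ (-(((r + 1 : ℕ) : ℤ) ^ 2))) *
          (φ (D n) * φ (u (n + 2 * k + 1)) * φ (P (r + 1))) := by ring
      _ = _ := by rw [h2]; ring

theorem b_big (M j : ℕ) (h : 2 * j + 1 ≤ M) : b qq v DL M j =
    φ (X ^ (6 * j ^ 2 + 7 * j + 1) * (1 - X ^ (4 * j + 3)) *
      (D M * u (M + 2 * j + 2) * u (M - 2 * j - 1))) := by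
  have e1 : (M : ℤ) + 2 * (j : ℤ) + 2 = ((M + 2 * j + 2 : ℕ) : ℤ) := by push_cast; ring
  have e2 : (M : ℤ) - 2 * (j : ℤ) - 1 = ((M - 2 * j - 1 : ℕ) : ℤ) := by omega
  rw [b, e1, e2, v_nat, v_nat, DL]
  simp only [map_mul, map_pow, map_sub, map_one]
  have h1 : φ X = qq := rfl
  rw [h1]
  ring

theorem b_zero (j : ℕ) : b qq v DL 0 j = φ (X ^ (2 * j ^ 2 + 3 * j)) := by
  have e1 : ((0 : ℕ) : ℤ) + 2 * (j : ℤ) + 2 = ((2 * j + 1 + 1 : ℕ) : ℤ) := by push_cast; ring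
  have e2 : ((0 : ℕ) : ℤ) - 2 * (j : ℤ) - 1 = -((2 * j + 1 : ℕ) : ℤ) := by push_cast; ring
  rw [b, e1, e2, v_nat, v_neg, DL]
  have hD : D 0 = 1 := by simp [D, P, Q]
  have h3 : (1 - X ^ (4 * j + 3)) * P (2 * j + 1) * u (2 * j + 1 + 1) = 1 := by
    have := P_mul_u (2 * j + 1 + 1)
    rw [P_succ] at this
    linear_combination this
  have h4 := congrArg φ h3
  simp only [map_mul, map_pow, map_sub, map_one] at h4
  have h1 : φ X = qq := rfl
  rw [h1] at h4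
  rw [hD, map_one, map_pow, h1]
  have h2 : qq ^ (6 * j ^ 2 + 7 * j + 1) * qq ^ (-(((2 * j + 1 : ℕ) : ℤ) ^ 2)) =
      qq ^ (2 * j ^ 2 + 3 * j) := by
    rw [← zpow_natCast, ← zpow_natCast, ← zpow_add₀ qq_ne]
    congr 1
    push_cast
    ring
  calc _ = (qq ^ (6 * j ^ 2 + 7 * j + 1) * qq ^ (-(((2 * j + 1 : ℕ) : ℤ) ^ 2))) *
        ((1 - qq ^ (4 * j + 3)) * φ (P (2 * j + 1)) * φ (u (2 * j + 1 + 1))) := by ring
    _ = _ := by rw [h2, h4, mul_one]

/-- the identity in the ring of power series -/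
theorem main_id (M k : ℕ) (h : 2 * k ≤ M) : ∃ G : S,
    ∑ n ∈ range M, X ^ (2 * n) * D n * u (n + 1) * u n =
      ∑ j ∈ range k, (X ^ (6 * j ^ 2 + 7 * j + 1) * (1 - X ^ (4 * j + 3)) *
        (D M * u (M + 2 * j + 2) * u (M - 2 * j - 1)) - X ^ (2 * j ^ 2 + 3 * j)) +
      X ^ (2 * k ^ 2 + 3 * k) * G := by
  choose g hg using fun n => a_dvd n k
  refine ⟨∑ n ∈ range M, g n, φ_inj ?_⟩
  have key := sum_id qq v DL qq_ne v_rec DL_succ M k
  rw [map_add, map_sum, map_sum, mul_sum, map_sum]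
  rw [sum_congr rfl fun n _ => (a_zero n).symm, sum_congr rfl fun n _ => (hg n).symm, key]
  congr 1
  refine sum_congr rfl fun j hj => ?_
  rw [mem_range] at hj
  rw [b_big M j (by omega), b_zero, map_sub]

/-- Euler's series -/
noncomputable def E : S := pentagonalSeries (ZMod 2)

theorem F_dvd {n m : ℕ} (h : n ≤ m) : (X : S) ^ (n + 1) ∣ F m - F n := by
  induction m, h using Nat.le_induction with
  | base => simp
  | succ m hm ih =>
    have : F (m + 1) - F n = (F m - F n) - F m * X ^ (m + 1) := by rw [F_succ]; ring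
    rw [this]
    exact dvd_sub ih (Dvd.dvd.mul_left (pow_dvd_pow _ (by omega)) _)

theorem E_dvd (n : ℕ) : (X : S) ^ (n + 1) ∣ E - F n := by
  rw [X_pow_dvd_iff]
  intro i hi
  have h1 := coeff_prod_one_sub_X_pow_eventually_eq (ZMod 2) i
  obtain ⟨s, hs⟩ := Filter.eventually_atTop.1 h1
  obtain ⟨m, hm⟩ := s.exists_nat_subset_range
  have h2 := hs (range (max m n)) (hm.trans (range_mono (le_max_left _ _)))
  have h3 : coeff i (F (max m n) - F n) = 0 :=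
    (X_pow_dvd_iff.1 (F_dvd (le_max_right m n))) i hi
  rw [map_sub, sub_eq_zero] at h3 ⊢
  rw [← h3]
  exact h2.symm

theorem E_unit : IsUnit E := by
  rw [isUnit_iff_constantCoeff]
  have h := (X_pow_dvd_iff.1 (E_dvd 0)) 0 (by norm_num)
  rw [coeff_zero_eq_constantCoeff_apply, map_sub, coeff0_F, sub_eq_zero] at h
  rw [h]
  exact isUnit_one

theorem F_dvd' {n m : ℕ} (h : n ≤ m) : (X : S) ^ (n + 1) ∣ F m - E := by
  have h1 := F_dvd h
  have h2 := E_dvd n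
  have : F m - E = (F m - F n) - (E - F n) := by ring
  rw [this]
  exact dvd_sub h1 h2

theorem u_dvd (n : ℕ) : (X : S) ^ (n + 1) ∣ u n - E := by
  have h1 : u n * F (2 * n) = F n ^ 2 := by
    rw [← P_mul_Q, Q_eq]
    linear_combination F n ^ 2 * P_mul_u n
  have h2 : (X : S) ^ (n + 1) ∣ F (2 * n) - E := F_dvd' (by omega)
  have h3 : (X : S) ^ (n + 1) ∣ F n - E := F_dvd' le_rfl
  have h4 : (u n - E) * E = (F n - E) * (F n + E) - u n * (F (2 * n) - E) := by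
    linear_combination h1
  rw [← E_unit.dvd_mul_right, h4]
  exact dvd_sub (Dvd.dvd.mul_right h3 _) (Dvd.dvd.mul_left h2 _)

theorem D_dvd (n : ℕ) : (X : S) ^ (n + 1) ∣ D n - 1 := by
  have h1 : D n - 1 = P n * ((F (2 * n) - E) - (u n - E)) := by
    rw [D_eq]
    linear_combination P_mul_u n
  rw [h1]
  exact Dvd.dvd.mul_left (dvd_sub (F_dvd' (by omega)) (u_dvd n)) _

theorem W_dvd (N M r s : ℕ) (hM : N ≤ M) (hr : N ≤ r) (hs : N ≤ s) :
    (X : S) ^ (N + 1) ∣ D M * u r * u s - E ^ 2 := by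
  have h1 := (pow_dvd_pow (X : S) (Nat.succ_le_succ hM)).trans (D_dvd M)
  have h2 := (pow_dvd_pow (X : S) (Nat.succ_le_succ hr)).trans (u_dvd r)
  have h3 := (pow_dvd_pow (X : S) (Nat.succ_le_succ hs)).trans (u_dvd s)
  have : D M * u r * u s - E ^ 2 =
      (D M - 1) * (u r * u s) + (u r - E) * u s + E * (u s - E) := by ring
  rw [this]
  exact dvd_add (dvd_add (Dvd.dvd.mul_right h1 _) (Dvd.dvd.mul_right h2 _))
    (Dvd.dvd.mul_left h3 _)

theorem zmod_two_add_self (x : ZMod 2) : x + x = 0 := by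
  revert x; decide

theorem sq_coeff (f : S) (n : ℕ) (h : coeff n (f ^ 2) ≠ 0) : ∃ m, n = 2 * m ∧ coeff m f ≠ 0 := by
  by_contra hc
  push Not at hc
  apply h
  rw [sq, coeff_mul]
  refine sum_involution (fun x _ => (x.2, x.1)) ?_ ?_ ?_ ?_
  · intro x _
    rw [mul_comm (coeff x.2 f)]
    exact zmod_two_add_self _
  · rintro ⟨a, b⟩ hx hne heq
    simp only [Prod.mk.injEq] at heq
    rw [HasAntidiagonal.mem_antidiagonal] at hx
    simp only at hx hne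
    obtain ⟨rfl, -⟩ := heq
    apply hne
    rw [hc b (by omega), mul_zero]
  · rintro ⟨a, b⟩ hx
    rw [HasAntidiagonal.mem_antidiagonal] at hx ⊢
    simp only at hx ⊢
    omega
  · rintro ⟨a, b⟩ _
    rfl

theorem E_sq (n : ℕ) (h : coeff n (E ^ 2) ≠ 0) :
    ∃ j : ℤ, 24 * (n : ℤ) + 2 = 2 * (6 * j - 1) ^ 2 := by
  obtain ⟨m, rfl, hm⟩ := sq_coeff E n h
  rw [E, Ne, coeff_pentagonalSeries_eq_zero_iff, not_not] at hm
  obtain ⟨j, hj⟩ := hm
  refine ⟨j, ?_⟩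
  have := two_mul_natCast_pentagonal j
  rw [hj] at this
  push_cast
  linear_combination 24 * this

theorem not_rep {N : ℤ} (m l : ℤ) (h : 3 * N = m ^ 2 + 2 * l ^ 2) (hm : ¬ 3 ∣ m) :
    ∃ x y : ℤ, N = x ^ 2 + 2 * y ^ 2 := by
  have key : ∀ l : ℤ, 3 * N = m ^ 2 + 2 * l ^ 2 → 3 ∣ m - l →
      ∃ x y : ℤ, N = x ^ 2 + 2 * y ^ 2 := by
    rintro l h ⟨y, hy⟩
    refine ⟨m - 2 * y, y, ?_⟩
    have : m = l + 3 * y := by linarith
    subst this
    linarith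
  have h3 : (3 : ℤ) ∣ (m - l) * (m + l) := ⟨N - l ^ 2, by linarith⟩
  rcases Int.prime_three.dvd_or_dvd h3 with h4 | h4
  · exact key l h h4
  · exact key (-l) (by linarith) (by simpa using h4)

theorem coeff_mul_one_sub (i e f : ℕ) (W : S) (h : coeff i (X ^ e * (1 - X ^ f) * W) ≠ 0) :
    (e ≤ i ∧ coeff (i - e) W ≠ 0) ∨ (e + f ≤ i ∧ coeff (i - (e + f)) W ≠ 0) := by
  by_contra hc
  push Not at hc
  apply h
  have h1 : X ^ e * (1 - X ^ f) * W = X ^ e * W - X ^ (e + f) * W := by ring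
  rw [h1, map_sub, coeff_X_pow_mul', coeff_X_pow_mul']
  split_ifs with h2 h3 h3
  · rw [hc.1 h2, hc.2 h3, sub_zero]
  · rw [hc.1 h2, sub_zero]
  · rw [hc.2 h3, sub_zero]
  · rw [sub_zero]

theorem parity_main (N M : ℕ) (hM : 3 * N + 10 ≤ M)
    (hN : ¬ ∃ x y : ℤ, 8 * (N : ℤ) + 9 = x ^ 2 + 2 * y ^ 2) :
    coeff N (∑ n ∈ range M, (X : S) ^ (2 * n) * D n * u (n + 1) * u n) = 0 := by
  obtain ⟨G, hG⟩ := main_id M (N + 1) (by omega)
  rw [hG, map_add, map_sum]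
  have h1 : coeff N ((X : S) ^ (2 * (N + 1) ^ 2 + 3 * (N + 1)) * G) = 0 := by
    rw [coeff_X_pow_mul', if_neg]
    nlinarith
  rw [h1, add_zero]
  refine sum_eq_zero fun j hj => ?_
  rw [mem_range] at hj
  rw [map_sub]
  have h2 : coeff N ((X : S) ^ (2 * j ^ 2 + 3 * j)) = 0 := by
    rw [coeff_X_pow, if_neg]
    intro h
    apply hN
    refine ⟨4 * j + 3, 0, ?_⟩
    rw [h]
    push_cast
    ring
  rw [h2, sub_zero]
  by_contra hc
  have hW := X_pow_dvd_iff.1 (W_dvd N M (M + 2 * j + 2) (M - 2 * j - 1) (by omega) (by omega)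
    (by omega))
  have fin : ∀ e : ℕ, ∀ c : ℤ, 24 * (e : ℤ) + 25 = c ^ 2 → ¬ 3 ∣ c → e ≤ N →
      coeff (N - e) (D M * u (M + 2 * j + 2) * u (M - 2 * j - 1)) = 0 := by
    intro e c hc1 hc2 hc3
    by_contra hne
    have h4 := hW (N - e) (by omega)
    rw [map_sub, sub_eq_zero] at h4
    rw [h4] at hne
    obtain ⟨i, hi⟩ := E_sq _ hne
    apply hN
    apply not_rep c (6 * i - 1) _ hc2
    rw [← hi, ← hc1]
    push_cast [Nat.cast_sub hc3]
    ring
  rcases coeff_mul_one_sub _ _ _ _ hc with ⟨h3, h4⟩ | ⟨h3, h4⟩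
  · apply h4
    refine fin _ (12 * j + 7) ?_ (by omega) h3
    push_cast
    ring
  · apply h4
    refine fin _ (12 * j + 11) ?_ (by omega) h3
    push_cast
    ring

end Pool.Agent.E8helper76.TO
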