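import Pool.Agent.E8helper76.TO.Tele

/-! The identity over the field with two elements. -/

set_option autoImplicit false

namespace Pool.Agent.E8helper76.TO

open Finset PowerSeries

/-- power series over the field with two elements -/
abbrev S := PowerSeries (ZMod 2)

theorem two_eq : (2 : S) = 0 := by
  have h : (2 : S) = C (2 : ZMod 2) := (map_ofNat C 2).symm
  rw [h, show (2 : ZMod 2) = 0 from by decide, map_zero]

theorem sq_sub (x : S) : (1 - x) ^ 2 = 1 - x ^ 2 := by
  have h2 : (2 : S) = 0 := two_eq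
  linear_combination (-x + x ^ 2) * h2

theorem add_eq_sub (x y : S) : x + y = x - y := by
  have h2 : (2 : S) = 0 := two_eq
  linear_combination y * h2

theorem neg_self (x : S) : -x = x := by
  have h2 : (2 : S) = 0 := two_eq
  linear_combination (-x) * h2

/-- `(q;q²)_n` -/
noncomputable def P (n : ℕ) : S := ∏ k ∈ range n, (1 - X ^ (2 * k + 1))

/-- `(q;q)_n` -/
noncomputable def F (n : ℕ) : S := ∏ k ∈ range n, (1 - X ^ (k + 1))

/-- `(q²;q²)_n = (q;q)_n²` -/
noncomputable def Q (n : ℕ) : S := ∏ k ∈ range n, (1 - X ^ (2 * k + 2))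

theorem P_succ (n : ℕ) : P (n + 1) = P n * (1 - X ^ (2 * n + 1)) := by
  rw [P, prod_range_succ, ← P]

theorem F_succ (n : ℕ) : F (n + 1) = F n * (1 - X ^ (n + 1)) := by
  rw [F, prod_range_succ, ← F]

theorem Q_succ (n : ℕ) : Q (n + 1) = Q n * (1 - X ^ (2 * n + 2)) := by
  rw [Q, prod_range_succ, ← Q]

theorem Q_eq (n : ℕ) : Q n = F n ^ 2 := by
  induction n with
  | zero => simp [Q, F]
  | succ n ih =>
    rw [Q_succ, F_succ, ih, mul_pow, sq_sub]
    ring

theorem P_mul_Q (n : ℕ) : P n * Q n = F (2 * n) := by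
  induction n with
  | zero => simp [P, Q, F]
  | succ n ih =>
    rw [P_succ, Q_succ, show 2 * (n + 1) = 2 * n + 1 + 1 by ring, F_succ, F_succ, ← ih]
    ring

theorem coeff0_P (n : ℕ) : constantCoeff (P n) = 1 := by
  induction n with
  | zero => simp [P]
  | succ n ih => rw [P_succ]; simp [ih]

theorem coeff0_F (n : ℕ) : constantCoeff (F n) = 1 := by
  induction n with
  | zero => simp [F]
  | succ n ih => rw [F_succ]; simp [ih]

/-- `1/(q;q²)_n` -/
noncomputable def u (n : ℕ) : S := (P n)⁻¹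

theorem P_mul_u (n : ℕ) : P n * u n = 1 :=
  PowerSeries.mul_inv_cancel _ (by rw [coeff0_P]; exact one_ne_zero)

theorem u_eq (n : ℕ) : u n = (1 - X ^ (2 * n + 1)) * u (n + 1) := by
  have h1 := P_mul_u n
  have h2 := P_mul_u (n + 1)
  rw [P_succ] at h2
  calc u n = u n * 1 := by ring
    _ = u n * (P n * (1 - X ^ (2 * n + 1)) * u (n + 1)) := by rw [h2]
    _ = (P n * u n) * ((1 - X ^ (2 * n + 1)) * u (n + 1)) := by ring
    _ = _ := by rw [h1, one_mul]

/-- `D n = (q^(2n+2);q²)_n` -/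
noncomputable def D (n : ℕ) : S := P n ^ 2 * Q n

theorem D_succ (n : ℕ) : D (n + 1) = D n * (1 - X ^ (4 * n + 2)) * (1 + X ^ (2 * n + 2)) := by
  rw [D, P_succ, Q_succ, mul_pow, sq_sub, D, add_eq_sub]
  ring

theorem D_eq (n : ℕ) : D n = P n * F (2 * n) := by
  rw [D, ← P_mul_Q]; ring

/-- Laurent series over the field with two elements -/
abbrev L := LaurentSeries (ZMod 2)

/-- the embedding of the power series -/
noncomputable def φ : S →+* L := HahnSeries.ofPowerSeries ℤ (ZMod 2)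

theorem φ_inj : Function.Injective φ := HahnSeries.ofPowerSeries_injective

theorem two_eqL : (2 : L) = 0 := by
  have := congrArg φ two_eq
  rwa [map_ofNat, map_zero] at this

/-- the variable in the Laurent series -/
noncomputable def qq : L := φ X

theorem qq_ne : qq ≠ 0 := by
  intro h
  have h2 : (X : S) = 0 := φ_inj (by rw [map_zero]; exact h)
  exact X_ne_zero h2

/-- `1/(q;q²)_i` for all integers `i` -/
noncomputable def v (i : ℤ) : L :=
  if 0 ≤ i then φ (u i.toNat) else qq ^ (-(i ^ 2)) * φ (P (-i).toNat)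

theorem v_nat (n : ℕ) : v (n : ℤ) = φ (u n) := by
  rw [v, if_pos (Int.natCast_nonneg n), Int.toNat_natCast]

theorem v_neg (n : ℕ) : v (-(n : ℤ)) = qq ^ (-((n : ℤ) ^ 2)) * φ (P n) := by
  rcases n.eq_zero_or_pos with rfl | hn
  · simp [v, P, u]
  · rw [v, if_neg (by omega), neg_neg, Int.toNat_natCast, neg_sq]

theorem v_rec (i : ℤ) : v i = (1 - qq ^ (2 * i + 1)) * v (i + 1) := by
  rcases le_or_gt 0 i with h | h
  · lift i to ℕ using h
    rw [v_nat, show (i : ℤ) + 1 = ((i + 1 : ℕ) : ℤ) by push_cast; rfl, v_nat, u_eq, map_mul,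
      map_sub, map_one, map_pow]
    congr 2
  · obtain ⟨m, rfl⟩ : ∃ m : ℕ, i = -((m + 1 : ℕ) : ℤ) := ⟨(-i - 1).toNat, by omega⟩
    rw [v_neg, show -((m + 1 : ℕ) : ℤ) + 1 = -(m : ℤ) by push_cast; ring, v_neg, P_succ,
      map_mul, map_sub, map_one, map_pow]
    have h1 : φ X = qq := rfl
    rw [h1]
    have e1 : qq ^ (2 * -((m + 1 : ℕ) : ℤ) + 1) = (qq ^ (2 * m + 1))⁻¹ := by
      rw [← zpow_natCast, ← zpow_neg]
      congr 1
    have e2 : qq ^ (-(((m + 1 : ℕ) : ℤ)) ^ 2) = qq ^ (-((m : ℤ) ^ 2)) * (qq ^ (2 * m + 1))⁻¹ := by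
      rw [← zpow_natCast, ← zpow_neg, ← zpow_add₀ qq_ne]
      congr 1
      push_cast
      try ring
    rw [e1, e2]
    have hne : qq ^ (2 * m + 1) ≠ 0 := pow_ne_zero _ qq_ne
    field_simp
    linear_combination (1 - qq ^ (2 * m + 1)) * φ (P m) * qq ^ (-(m : ℤ) ^ 2) * two_eqL
    
end Pool.Agent.E8helper76.TO
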